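import Pool.Agent.helper21.WB.LibB

/-! [WB-Z1] small elements of a discrete subgroup of `O^+(4,1)` commute. -/

set_option autoImplicit false
open Matrix MeasureTheory

namespace Pool.Agent.helper21.WB

namespace Z1

/-! ### null vectors -/

theorem eq_zero_of {z : I → ℝ} (h0 : z o = 0) (h : bl z z = 0) : z = 0 := by
  rw [bl_apply, h0] at h
  have h1 : ∑ i : Fin 4, z (Sum.inl i) * z (Sum.inl i) = 0 := by linarith
  have h2 := (Finset.sum_eq_zero_iff_of_nonneg (fun i _ => mul_self_nonneg _)).1 h1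
  ext i
  rcases i with i | i
  · simpa using h2 i (Finset.mem_univ _)
  · exact h0

theorem null_prop {x y : I → ℝ} (hx : bl x x = 0) (hy : bl y y = 0) (hxy : bl x y = 0)
    (h0 : x ≠ 0) : ∃ t : ℝ, y = t • x := by
  have hxo : x o ≠ 0 := fun h => h0 (eq_zero_of h hx)
  refine ⟨y o / x o, ?_⟩
  have hz : y - (y o / x o) • x = 0 := by
    apply eq_zero_of
    · simp [hxo]
    · simp only [bl_sub_left, bl_sub_right, bl_smul_left, bl_smul_right, hx, hy, hxy, bl_comm y x]
      ring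
  exact sub_eq_zero.1 hz

theorem exists_bl_ne {x : I → ℝ} (h0 : x ≠ 0) : ∃ u, bl x u ≠ 0 := by
  by_contra hcon
  push Not at hcon
  apply h0
  have h1 := hcon (J *ᵥ x)
  unfold bl at h1
  rw [Matrix.mulVec_mulVec, J_mul_J, Matrix.one_mulVec] at h1
  exact dotProduct_self_eq_zero.1 h1

/-! ### the adjoint -/

variable {c : GLI}

theorem adj0 (hc : InG c) (x y : I → ℝ) :
    bl (c.val *ᵥ x) y = bl x ((c⁻¹ : GLI).val *ᵥ y) := by
  have := bl_mulVec hc.1 x ((c⁻¹ : GLI).val *ᵥ y)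
  rw [Matrix.mulVec_mulVec, ← Units.val_mul, mul_inv_cancel, Units.val_one,
    Matrix.one_mulVec] at this
  exact this

theorem comm_inv : Commute (c⁻¹ : GLI).val (c.val - 1) := by
  apply Commute.sub_right _ (Commute.one_right _)
  show (c⁻¹ : GLI).val * c.val = c.val * (c⁻¹ : GLI).val
  rw [← Units.val_mul, ← Units.val_mul, inv_mul_cancel, mul_inv_cancel]

theorem adj (hc : InG c) (x y : I → ℝ) :
    bl ((c.val - 1) *ᵥ x) y = - bl x (((c⁻¹ : GLI).val * (c.val - 1)) *ᵥ y) := by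
  have e : (c⁻¹ : GLI).val * (c.val - 1) = 1 - (c⁻¹ : GLI).val := by
    rw [mul_sub, mul_one, ← Units.val_mul, inv_mul_cancel, Units.val_one]
  rw [e, Matrix.sub_mulVec, Matrix.one_mulVec, Matrix.sub_mulVec, Matrix.one_mulVec, bl_sub_left,
    bl_sub_right, adj0 hc]
  ring

theorem bl_pow (hc : InG c) : ∀ (i j : ℕ), (c.val - 1) ^ (i + j) = 0 → ∀ x y : I → ℝ,
    bl ((c.val - 1) ^ i *ᵥ x) ((c.val - 1) ^ j *ᵥ y) = 0 := by
  intro i
  induction i with
  | zero =>
    intro j h x y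
    rw [zero_add] at h
    rw [h, Matrix.zero_mulVec]
    unfold bl
    simp
  | succ i ih =>
    intro j h x y
    have h1 := ih (j + 1) (by rw [← h]; congr 1; ring) x ((c⁻¹ : GLI).val *ᵥ y)
    rw [pow_succ', ← Matrix.mulVec_mulVec, adj hc, Matrix.mulVec_mulVec]
    have e : (c⁻¹ : GLI).val * (c.val - 1) * (c.val - 1) ^ j
        = (c.val - 1) ^ (j + 1) * (c⁻¹ : GLI).val := by
      rw [mul_assoc, ← pow_succ']
      exact (comm_inv.pow_right (j + 1)).eq
    rw [e, ← Matrix.mulVec_mulVec, h1, neg_zero]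

theorem bl_single (hc : InG c) (u : I → ℝ) (h : (c.val - 1) ^ 2 *ᵥ u = 0) :
    bl ((c.val - 1) *ᵥ u) ((c.val - 1) *ᵥ u) = 0 := by
  rw [adj hc, Matrix.mulVec_mulVec, mul_assoc, ← pow_two, ← Matrix.mulVec_mulVec, h]
  unfold bl
  simp

theorem exists_mulVec_ne {M : Mat} (h : M ≠ 0) : ∃ v : I → ℝ, M *ᵥ v ≠ 0 := by
  by_contra hcon
  push Not at hcon
  apply h
  ext i j
  have := congrFun (hcon (Pi.single j 1)) i
  rw [Matrix.mulVec_single] at this
  simpa using this

/-! ### nilpotent case -/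

/-- elements commuting with a nontrivial unipotent element -/
theorem stab (hc : InG c) (h3 : (c.val - 1) ^ 3 = 0) {v : I → ℝ}
    (hv : (c.val - 1) ^ 2 *ᵥ v ≠ 0) {g : GLI} (hg : InG g)
    (hcomm : Commute g.val (c.val - 1)) :
    g.val *ᵥ ((c.val - 1) ^ 2 *ᵥ v) = (c.val - 1) ^ 2 *ᵥ v ∧
    ∃ t : ℝ, g.val *ᵥ ((c.val - 1) *ᵥ v) = (c.val - 1) *ᵥ v + t • ((c.val - 1) ^ 2 *ᵥ v) := by
  set M := c.val - 1 with hM
  set ξ := M ^ 2 *ᵥ v with hξ
  set w := M *ᵥ v with hw
  have h4 : M ^ 4 = 0 := by rw [pow_succ, h3, zero_mul]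
  have hξξ : bl ξ ξ = 0 := bl_pow hc 2 2 h4 v v
  have hMξ : M *ᵥ ξ = 0 := by
    rw [hξ, Matrix.mulVec_mulVec, ← pow_succ', h3, Matrix.zero_mulVec]
  have hMw : M *ᵥ w = ξ := by rw [hw, Matrix.mulVec_mulVec, ← pow_two]
  have hw1 : M ^ 1 *ᵥ v = w := by rw [pow_one]
  have hξw : bl ξ w = 0 := by rw [← hw1]; exact bl_pow hc 2 1 h3 v v
  have hww : bl w w ≠ 0 := by
    intro h
    obtain ⟨t, ht⟩ := null_prop hξξ h hξw hv
    apply hv
    rw [← hMw, ht, Matrix.mulVec_smul, hMξ, smul_zero]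
  -- `g ξ = α ξ`
  have hgξ : g.val *ᵥ ξ = M ^ 2 *ᵥ (g.val *ᵥ v) := by
    rw [hξ, Matrix.mulVec_mulVec, Matrix.mulVec_mulVec, (hcomm.pow_right 2).eq]
  have hgw : g.val *ᵥ w = M *ᵥ (g.val *ᵥ v) := by
    rw [hw, Matrix.mulVec_mulVec, Matrix.mulVec_mulVec, hcomm.eq]
  obtain ⟨α, hα⟩ : ∃ α : ℝ, g.val *ᵥ ξ = α • ξ := by
    rw [hgξ]
    exact null_prop hξξ (bl_pow hc 2 2 h4 _ _) (bl_pow hc 2 2 h4 _ _) hv
  set u := g.val *ᵥ v - α • v with hu
  have hMu : M ^ 2 *ᵥ u = 0 := by
    rw [hu, Matrix.mulVec_sub, Matrix.mulVec_smul, ← hgξ, hα, sub_self]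
  have hnull : bl (M *ᵥ u) (M *ᵥ u) = 0 := bl_single hc u hMu
  have horth : bl ξ (M *ᵥ u) = 0 := by
    have := bl_pow hc 2 1 h3 v u
    rwa [pow_one] at this
  obtain ⟨t, ht⟩ := null_prop hξξ hnull horth hv
  have hgw2 : g.val *ᵥ w = α • w + t • ξ := by
    have : g.val *ᵥ v = α • v + u := by rw [hu]; abel
    rw [hgw, this, Matrix.mulVec_add, Matrix.mulVec_smul, ht]
  have hα2 : α ^ 2 = 1 := by
    have h1 := bl_mulVec hg.1 w w
    rw [hgw2, bl_add_left, bl_add_right, bl_add_right, bl_smul_left, bl_smul_left, bl_smul_left,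
      bl_smul_left, bl_smul_right, bl_smul_right, bl_smul_right, bl_smul_right, hξξ, hξw,
      bl_comm w ξ, hξw] at h1
    have h2 : (α ^ 2 - 1) * bl w w = 0 := by linear_combination h1
    rcases mul_eq_zero.1 h2 with h | h
    · linarith
    · exact absurd h hww
  -- time orientation
  have hαpos : 0 < α := by
    have hξo : ξ o ≠ 0 := fun h => hv (eq_zero_of h hξξ)
    have e1 : bl (lift (act g 0)) (g.val *ᵥ ξ) = bl (lift 0) ξ := by
      rw [lift_act hg, bl_mulVec hg.1]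
    rw [hα, bl_smul_right] at e1
    rcases lt_or_gt_of_ne hξo with hneg | hpos
    · have n1 := bl_neg (v := lift (act g 0)) (w := -ξ) (by rw [bl_lift]; norm_num)
        (by linarith [lift_o_pos (act g 0)])
        (by
          have : bl (-ξ) (-ξ) = 0 := by
            rw [← neg_one_smul ℝ ξ, bl_smul_left, bl_smul_right, hξξ]; ring
          rw [this]) (by simpa using hneg)
      have n2 := bl_neg (v := lift 0) (w := -ξ) (by rw [bl_lift]; norm_num)
        (by linarith [lift_o_pos 0])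
        (by
          have : bl (-ξ) (-ξ) = 0 := by
            rw [← neg_one_smul ℝ ξ, bl_smul_left, bl_smul_right, hξξ]; ring
          rw [this]) (by simpa using hneg)
      rw [← neg_one_smul ℝ ξ, bl_smul_right] at n1 n2
      by_contra hle
      push Not at hle
      nlinarith
    · have n1 := bl_neg (v := lift (act g 0)) (w := ξ) (by rw [bl_lift]; norm_num)
        (by linarith [lift_o_pos (act g 0)]) (by rw [hξξ]) hpos
      have n2 := bl_neg (v := lift 0) (w := ξ) (by rw [bl_lift]; norm_num)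
        (by linarith [lift_o_pos 0]) (by rw [hξξ]) hpos
      by_contra hle
      push Not at hle
      nlinarith
  have hα1 : α = 1 := by nlinarith
  refine ⟨by rw [hα, hα1, one_smul], t, ?_⟩
  rw [hgw2, hα1, one_smul]

/-- a unipotent commutator commuting with its entries is trivial -/
theorem unip_comm {a b : GLI} (ha : InG a) (hb : InG b) (hc : InG c) (hab : a * b = c * (b * a))
    (hca : Commute c a) (hcb : Commute c b) (hnil : IsNilpotent (c.val - 1)) : c = 1 := by
  by_contra hne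
  set M := c.val - 1 with hM
  have hM0 : M ≠ 0 := by
    intro h
    apply hne
    apply Units.ext
    rw [Units.val_one]
    exact sub_eq_zero.1 h
  obtain ⟨k, hk, hk1⟩ : ∃ k : ℕ, M ^ k ≠ 0 ∧ M ^ (k + 1) = 0 := by
    classical
    have hfind := Nat.find_spec hnil
    have hpos : Nat.find hnil ≠ 0 := by
      intro h0
      rw [h0, pow_zero] at hfind
      exact one_ne_zero hfind
    obtain ⟨k, hk⟩ := Nat.exists_eq_succ_of_ne_zero hpos
    refine ⟨k, ?_, ?_⟩
    · exact Nat.find_min hnil (by rw [hk]; exact Nat.lt_succ_self k)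
    · rw [hk] at hfind; exact hfind
  have hge : ∀ m, k + 1 ≤ m → M ^ m = 0 := fun m hm => by
    rw [← Nat.sub_add_cancel hm, pow_add, hk1, mul_zero]
  rcases Nat.lt_or_ge k 3 with hk3 | hk3
  · interval_cases k
    · -- `k = 0`
      rw [zero_add, pow_one] at hk1
      exact hM0 hk1
    · -- `k = 1`
      obtain ⟨v, hv⟩ := exists_mulVec_ne hM0
      have hnull : ∀ x y : I → ℝ, bl (M *ᵥ x) (M *ᵥ y) = 0 := by
        intro x y
        have := bl_pow hc 1 1 (hge 2 le_rfl) x y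
        rwa [pow_one] at this
      have hself : ∀ u : I → ℝ, bl (M *ᵥ u) u = 0 := by
        intro u
        have h1 := bl_mulVec hc.1 u u
        have e : c.val *ᵥ u = u + M *ᵥ u := by
          rw [hM, Matrix.sub_mulVec, Matrix.one_mulVec]; abel
        rw [e, bl_add_left, bl_add_right, bl_add_right, hnull, bl_comm u (M *ᵥ u)] at h1
        linarith
      obtain ⟨u, hu⟩ := exists_bl_ne hv
      obtain ⟨f, hf⟩ := null_prop (hnull v v) (hnull u u) (hnull v u) hv
      have hf0 : f = 0 := by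
        have := hself u
        rw [hf, bl_smul_left] at this
        rcases mul_eq_zero.1 this with h | h
        · exact h
        · exact absurd h hu
      have h2 := hself (v + u)
      rw [Matrix.mulVec_add, hf, hf0, zero_smul, add_zero, bl_add_right, hself v, zero_add] at h2
      exact hu h2
    · -- `k = 2`
      obtain ⟨v, hv⟩ := exists_mulVec_ne hk
      have hcA : Commute a.val M := by
        apply Commute.sub_right _ (Commute.one_right _)
        show a.val * c.val = c.val * a.val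
        rw [← Units.val_mul, ← Units.val_mul, hca.eq]
      have hcB : Commute b.val M := by
        apply Commute.sub_right _ (Commute.one_right _)
        show b.val * c.val = c.val * b.val
        rw [← Units.val_mul, ← Units.val_mul, hcb.eq]
      obtain ⟨ha1, s, ha2⟩ := stab hc hk1 hv ha hcA
      obtain ⟨hb1, t, hb2⟩ := stab hc hk1 hv hb hcB
      rw [← hM] at ha1 ha2 hb1 hb2
      set ξ := M ^ 2 *ᵥ v with hξ
      set w := M *ᵥ v with hw
      have e1 : (a * b).val *ᵥ w = w + (s + t) • ξ := by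
        rw [Units.val_mul, ← Matrix.mulVec_mulVec, hb2, Matrix.mulVec_add, Matrix.mulVec_smul, ha1,
          ha2, add_smul]; abel
      have e2 : (b * a).val *ᵥ w = w + (s + t) • ξ := by
        rw [Units.val_mul, ← Matrix.mulVec_mulVec, ha2, Matrix.mulVec_add, Matrix.mulVec_smul, hb1,
          hb2, add_smul]; abel
      have hMξ : M *ᵥ ξ = 0 := by
        rw [hξ, Matrix.mulVec_mulVec, ← pow_succ', hk1, Matrix.zero_mulVec]
      have hMw : M *ᵥ w = ξ := by rw [hw, Matrix.mulVec_mulVec, ← pow_two]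
      have hcξ : c.val *ᵥ ξ = ξ := by
        have : c.val = M + 1 := by rw [hM]; abel
        rw [this, Matrix.add_mulVec, Matrix.one_mulVec, hMξ, zero_add]
      have hcw : c.val *ᵥ w = ξ + w := by
        have : c.val = M + 1 := by rw [hM]; abel
        rw [this, Matrix.add_mulVec, Matrix.one_mulVec, hMw]
      have e3 : (a * b).val *ᵥ w = (ξ + w) + (s + t) • ξ := by
        rw [hab, Units.val_mul, ← Matrix.mulVec_mulVec, e2, Matrix.mulVec_add, Matrix.mulVec_smul,
          hcξ, hcw]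
      rw [e1] at e3
      apply hv
      have := add_right_cancel e3
      exact (left_eq_add.1 (by rw [add_comm]; exact this))
  · -- `k ≥ 3`
    obtain ⟨u, hu⟩ := exists_mulVec_ne hk
    obtain ⟨l, rfl⟩ : ∃ l, k = l + 1 := ⟨k - 1, by omega⟩
    set x := M ^ l *ᵥ u with hx
    have hMx : M *ᵥ x = M ^ (l + 1) *ᵥ u := by rw [hx, Matrix.mulVec_mulVec, ← pow_succ']
    have hMx0 : M *ᵥ x ≠ 0 := by rw [hMx]; exact hu
    have hx0 : x ≠ 0 := by
      intro h; apply hMx0; rw [h, Matrix.mulVec_zero]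
    have n1 : bl x x = 0 := bl_pow hc l l (hge _ (by omega)) u u
    have n2 : bl (M *ᵥ x) (M *ᵥ x) = 0 := by
      rw [hMx]; exact bl_pow hc (l + 1) (l + 1) (hge _ (by omega)) u u
    have n3 : bl x (M *ᵥ x) = 0 := by
      rw [hMx]; exact bl_pow hc l (l + 1) (hge _ (by omega)) u u
    obtain ⟨t, ht⟩ := null_prop n1 n2 n3 hx0
    have h2 : M *ᵥ (M *ᵥ x) = 0 := by
      rw [hMx, Matrix.mulVec_mulVec, ← pow_succ', hge _ le_rfl, Matrix.zero_mulVec]
    rw [ht, Matrix.mulVec_smul, ht, smul_smul] at h2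
    rcases smul_eq_zero.1 h2 with h | h
    · have : t = 0 := by simpa using h
      apply hMx0; rw [ht, this, zero_smul]
    · exact hx0 h


open Polynomial in
/-- over `ℂ` a non nilpotent matrix has a nonzero eigenvalue -/
theorem exists_eig (N : Matrix I I ℂ) (h : ¬ IsNilpotent N) :
    ∃ z : ℂ, z ≠ 0 ∧ ∃ x : I → ℂ, x ≠ 0 ∧ N *ᵥ x = z • x := by
  by_contra hcon
  push Not at hcon
  apply h
  have hroots : ∀ z ∈ N.charpoly.roots, z = 0 := by
    intro z hz
    by_contra h0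
    have hr := (Polynomial.mem_roots'.1 hz).2
    rw [Polynomial.IsRoot.def, Matrix.eval_charpoly] at hr
    obtain ⟨x, hx0, hx⟩ := Matrix.exists_mulVec_eq_zero_iff.2 hr
    apply hcon z h0 x hx0
    rw [Matrix.sub_mulVec, sub_eq_zero] at hx
    rw [← hx, Matrix.scalar_apply, Matrix.diagonal_const_mulVec]
  have hrep : N.charpoly.roots = Multiset.replicate (Multiset.card N.charpoly.roots) 0 :=
    Multiset.eq_replicate_card.2 hroots
  have hp : N.charpoly = Polynomial.X ^ (Multiset.card N.charpoly.roots) := by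
    have h1 := (IsAlgClosed.splits N.charpoly).eq_prod_roots_of_monic (Matrix.charpoly_monic N)
    rw [hrep] at h1
    simpa using h1
  refine ⟨Multiset.card N.charpoly.roots, ?_⟩
  have := Matrix.aeval_self_charpoly N
  rw [hp] at this
  simpa using this

/-- eigenvalues are bounded by entries -/
theorem norm_eig_le {N : Matrix I I ℂ} {e : ℝ} (hN : ∀ i j, ‖N i j‖ ≤ e) {z : ℂ} {x : I → ℂ}
    (hx : x ≠ 0) (h : N *ᵥ x = z • x) : ‖z‖ ≤ 5 * e := by
  obtain ⟨i, -, hi⟩ := Finset.exists_max_image (Finset.univ : Finset I) (fun i => ‖x i‖)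
    Finset.univ_nonempty
  have hxi : 0 < ‖x i‖ := by
    obtain ⟨j, hj⟩ := Function.ne_iff.1 hx
    exact lt_of_lt_of_le (norm_pos_iff.2 hj) (hi j (Finset.mem_univ _))
  have h1 : z * x i = ∑ j, N i j * x j := by
    have := congrFun h i
    rw [Pi.smul_apply, smul_eq_mul] at this
    rw [← this]; rfl
  have h2 : ‖z‖ * ‖x i‖ ≤ 5 * e * ‖x i‖ := by
    rw [← norm_mul, h1]
    calc ‖∑ j, N i j * x j‖ ≤ ∑ j, ‖N i j * x j‖ := norm_sum_le _ _
      _ ≤ ∑ j : I, e * ‖x i‖ := by
          refine Finset.sum_le_sum (fun j _ => ?_)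
          rw [norm_mul]
          exact mul_le_mul (hN i j) (hi j (Finset.mem_univ _)) (norm_nonneg _)
            ((norm_nonneg _).trans (hN i j))
      _ = 5 * e * ‖x i‖ := by
          rw [Finset.sum_const, Finset.card_univ]
          simp
          ring
  exact le_of_mul_le_mul_right h2 hxi

/-- a root of unity of small order near `1` is `1` -/
theorem root_eq_one {z : ℂ} {m : ℕ} (h0 : m ≠ 0) (h5 : m ≤ 5) (h : (1 + z) ^ m = 1)
    (hz : ‖z‖ < 1 / 4) : z = 0 := by
  by_contra hz0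
  have hl : ‖1 + z‖ = 1 := by
    have := congrArg norm h
    rw [norm_pow, norm_one] at this
    exact (pow_eq_one_iff_of_nonneg (norm_nonneg _) h0).1 this
  have hgeom : ∑ i ∈ Finset.range m, (1 + z) ^ i = 0 := by
    have := geom_sum_mul (1 + z) m
    rw [h, sub_self] at this
    rcases mul_eq_zero.1 this with h1 | h1
    · exact h1
    · exact absurd (by simpa using h1) hz0
  have hpow : ∀ i : ℕ, ‖1 - (1 + z) ^ i‖ ≤ i * ‖z‖ := by
    intro i
    induction i with
    | zero => simp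
    | succ i ih =>
      have e : 1 - (1 + z) ^ (i + 1) = (1 - (1 + z) ^ i) - (1 + z) ^ i * z := by ring
      rw [e]
      calc _ ≤ ‖1 - (1 + z) ^ i‖ + ‖(1 + z) ^ i * z‖ := norm_sub_le _ _
        _ ≤ i * ‖z‖ + ‖z‖ := by
            rw [norm_mul, norm_pow, hl, one_pow, one_mul]
            linarith
        _ = ((i + 1 : ℕ) : ℝ) * ‖z‖ := by push_cast; ring
  have h1 : ‖∑ i ∈ Finset.range m, (1 - (1 + z) ^ i)‖ = m := by
    rw [Finset.sum_sub_distrib, hgeom, sub_zero]
    simp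
  have h2 : ‖∑ i ∈ Finset.range m, (1 - (1 + z) ^ i)‖ < m := by
    calc _ ≤ ∑ i ∈ Finset.range m, ‖1 - (1 + z) ^ i‖ := norm_sum_le _ _
      _ < ∑ i ∈ Finset.range m, (1 : ℝ) := by
          refine Finset.sum_lt_sum_of_nonempty (Finset.nonempty_range_iff.2 h0) (fun i hi => ?_)
          have hi' := Finset.mem_range.1 hi
          have : (i : ℝ) ≤ 4 := by
            have : i ≤ 4 := by omega
            exact_mod_cast this
          have h3 := hpow i
          nlinarith [norm_nonneg z]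
      _ = m := by simp
  linarith

/-- if `A B = C B A` and `C` commutes with `A` and `B`, all of them invertible,
then eigenvalues of `C` are roots of unity -/
theorem eig_root {A B C A' B' : Matrix I I ℂ} (hA : A' * A = 1) (hB : B' * B = 1)
    (hAB : A * B = C * (B * A)) (hCA : Commute C A) (hCB : Commute C B)
    {z : ℂ} {x : I → ℂ} (hx : x ≠ 0) (h : C *ᵥ x = z • x) :
    ∃ m : ℕ, m ≠ 0 ∧ m ≤ 5 ∧ z ^ m = 1 := by
  classical
  have hA2 : A * A' = 1 := mul_eq_one_comm.1 hA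
  have hB2 : B * B' = 1 := mul_eq_one_comm.1 hB
  have hCA' : Commute C A' := by
    show C * A' = A' * C
    calc C * A' = A' * A * C * A' := by rw [hA, one_mul]
      _ = A' * (A * C) * A' := by rw [mul_assoc A' A C]
      _ = A' * (C * A) * A' := by rw [hCA.eq]
      _ = A' * C * (A * A') := by simp only [mul_assoc]
      _ = A' * C := by rw [hA2, mul_one]
  have hCB' : Commute C B' := by
    show C * B' = B' * C
    calc C * B' = B' * B * C * B' := by rw [hB, one_mul]
      _ = B' * (B * C) * B' := by rw [mul_assoc B' B C]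
      _ = B' * (C * B) * B' := by rw [hCB.eq]
      _ = B' * C * (B * B') := by simp only [mul_assoc]
      _ = B' * C := by rw [hB2, mul_one]
  set E : Submodule ℂ (I → ℂ) := Module.End.eigenspace (Matrix.toLin' C) z with hE
  have hmem : ∀ y, y ∈ E ↔ C *ᵥ y = z • y := by
    intro y
    rw [hE, Module.End.mem_eigenspace_iff, Matrix.toLin'_apply]
  have hstab : ∀ D : Matrix I I ℂ, Commute C D → ∀ y ∈ E, Matrix.toLin' D y ∈ E := by
    intro D hD y hy
    rw [hmem] at hy ⊢
    rw [Matrix.toLin'_apply, Matrix.mulVec_mulVec, hD.eq, ← Matrix.mulVec_mulVec, hy,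
      Matrix.mulVec_smul]
  let fA : E →ₗ[ℂ] E := (Matrix.toLin' A).restrict (hstab A hCA)
  let fB : E →ₗ[ℂ] E := (Matrix.toLin' B).restrict (hstab B hCB)
  let fA' : E →ₗ[ℂ] E := (Matrix.toLin' A').restrict (hstab A' hCA')
  let fB' : E →ₗ[ℂ] E := (Matrix.toLin' B').restrict (hstab B' hCB')
  have e1 : fA' * fA = 1 := by
    ext y
    show ((A' *ᵥ (A *ᵥ (y : I → ℂ))) _) = _
    rw [Matrix.mulVec_mulVec, hA, Matrix.one_mulVec]; rfl
  have e2 : fB' * fB = 1 := by
    ext y
    show ((B' *ᵥ (B *ᵥ (y : I → ℂ))) _) = _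
    rw [Matrix.mulVec_mulVec, hB, Matrix.one_mulVec]; rfl
  have e3 : fA * fB = z • (fB * fA) := by
    apply LinearMap.ext
    intro y
    apply Subtype.ext
    show A *ᵥ (B *ᵥ (y : I → ℂ)) = z • (B *ᵥ (A *ᵥ (y : I → ℂ)))
    rw [Matrix.mulVec_mulVec, hAB, Matrix.mulVec_mulVec, ← Matrix.mulVec_mulVec]
    have : (B * A) *ᵥ (y : I → ℂ) ∈ E := by
      have h1 := hstab (B * A) (hCB.mul_right hCA) y y.2
      rwa [Matrix.toLin'_apply] at h1
    exact (hmem _).1 this
  have hdA : LinearMap.det fA ≠ 0 := by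
    intro h0
    have := congrArg LinearMap.det e1
    rw [map_mul, h0, mul_zero, map_one] at this
    exact zero_ne_one this
  have hdB : LinearMap.det fB ≠ 0 := by
    intro h0
    have := congrArg LinearMap.det e2
    rw [map_mul, h0, mul_zero, map_one] at this
    exact zero_ne_one this
  refine ⟨Module.finrank ℂ E, ?_, ?_, ?_⟩
  · intro h0
    have : E = ⊥ := Submodule.finrank_eq_zero.1 h0
    have hxE : x ∈ E := (hmem x).2 h
    rw [this] at hxE
    exact hx ((Submodule.mem_bot ℂ).1 hxE)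
  · have := Submodule.finrank_le E
    rw [Module.finrank_fintype_fun_eq_card] at this
    simpa using this
  · have := congrArg LinearMap.det e3
    rw [map_mul, LinearMap.det_smul, map_mul] at this
    have h2 : (z ^ Module.finrank ℂ E - 1) * (LinearMap.det fA * LinearMap.det fB) = 0 := by
      linear_combination -this
    rcases mul_eq_zero.1 h2 with h3 | h3
    · exact sub_eq_zero.1 h3
    · exact absurd h3 (mul_ne_zero hdA hdB)

/-- commutators close to one, commuting with their entries, are unipotent -/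
theorem nil_of_small {a b c : GLI} (hab : a * b = c * (b * a)) (hca : Commute c a)
    (hcb : Commute c b) (hsm : ∀ i j, |(c.val - 1) i j| ≤ 1 / 21) : IsNilpotent (c.val - 1) := by
  have hinj : Function.Injective (fun A : Mat => A.map (algebraMap ℝ ℂ)) :=
    Matrix.map_injective (algebraMap ℝ ℂ).injective
  let φ : Mat →+* Matrix I I ℂ := (algebraMap ℝ ℂ).mapMatrix
  have hφ : Function.Injective φ := hinj
  rw [← IsNilpotent.map_iff hφ]
  by_contra hn
  obtain ⟨z, hz0, x, hx0, hx⟩ := exists_eig _ hn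
  have hbd : ‖z‖ ≤ 5 * (1 / 21) := by
    refine norm_eig_le (fun i j => ?_) hx0 hx
    show ‖((c.val - 1) i j : ℂ)‖ ≤ _
    rw [Complex.norm_real]
    exact hsm i j
  have hC : (φ c.val) *ᵥ x = (1 + z) • x := by
    have : φ c.val = φ (c.val - 1) + 1 := by rw [map_sub, map_one]; abel
    rw [this, Matrix.add_mulVec, hx, Matrix.one_mulVec, add_smul, one_smul, add_comm]
  obtain ⟨m, hm0, hm5, hm⟩ := eig_root (A := φ a.val) (B := φ b.val) (C := φ c.val)
    (A' := φ (a⁻¹ : GLI).val) (B' := φ (b⁻¹ : GLI).val)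
    (by rw [← map_mul, ← Units.val_mul, inv_mul_cancel, Units.val_one, map_one])
    (by rw [← map_mul, ← Units.val_mul, inv_mul_cancel, Units.val_one, map_one])
    (by rw [← map_mul, ← map_mul, ← map_mul, ← Units.val_mul, ← Units.val_mul, ← Units.val_mul, hab])
    (by
      show φ c.val * φ a.val = φ a.val * φ c.val
      rw [← map_mul, ← map_mul, ← Units.val_mul, ← Units.val_mul, hca.eq])
    (by
      show φ c.val * φ b.val = φ b.val * φ c.val
      rw [← map_mul, ← map_mul, ← Units.val_mul, ← Units.val_mul, hcb.eq]) hx0 hC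
  exact hz0 (root_eq_one hm0 hm5 hm (lt_of_le_of_lt hbd (by norm_num)))


/-! ### norms -/

theorem nrm_one (y : X) : nrm y 1 ≤ 5 / 2 := by
  rw [← act_bst y, nrm_act (bst_inG y), mul_one, ← Units.val_mul, inv_mul_cancel, Units.val_one,
    fn_one]
  rw [Real.sqrt_le_left (by norm_num)]
  norm_num

theorem nrm_inv_le {s : GLI} (hs : InG s) (y : X) (h : sm y s ≤ 1 / 100) :
    nrm y (s⁻¹ : GLI).val ≤ 3 := by
  have e : (s⁻¹ : GLI).val = ((s⁻¹ : GLI).val - 1) + 1 := by abel
  rw [e]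
  have h1 := nrm_add y ((s⁻¹ : GLI).val - 1) 1
  have h2 : nrm y ((s⁻¹ : GLI).val - 1) = sm y s := sm_inv hs y
  have h3 := nrm_one y
  linarith

theorem sm_nonneg (y : X) (s : GLI) : 0 ≤ sm y s := nrm_nonneg y _

theorem sm_comm_le {s t : GLI} (hs : InG s) (ht : InG t) (y : X) (h1 : sm y s ≤ 1 / 100)
    (h2 : sm y t ≤ 1 / 100) : sm y (s * t * s⁻¹ * t⁻¹) ≤ 18 * sm y s * sm y t := by
  have hs1 : s.val * (s⁻¹ : GLI).val = 1 := by
    rw [← Units.val_mul, mul_inv_cancel, Units.val_one]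
  have ht1 : t.val * (t⁻¹ : GLI).val = 1 := by
    rw [← Units.val_mul, mul_inv_cancel, Units.val_one]
  have e : (s * t * s⁻¹ * t⁻¹ : GLI).val - 1
      = ((s.val - 1) * (t.val - 1) - (t.val - 1) * (s.val - 1)) * (s⁻¹ : GLI).val
        * (t⁻¹ : GLI).val := by
    have e1 : (s.val - 1) * (t.val - 1) - (t.val - 1) * (s.val - 1)
        = s.val * t.val - t.val * s.val := by noncomm_ring
    rw [e1, sub_mul, sub_mul, mul_assoc (t.val) s.val, hs1, mul_one, ht1]
    rfl
  have ha := nrm_nonneg y (s.val - 1)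
  have hb := nrm_nonneg y (t.val - 1)
  have hc : nrm y ((s.val - 1) * (t.val - 1) - (t.val - 1) * (s.val - 1))
      ≤ 2 * sm y s * sm y t := by
    have i1 := nrm_sub y ((s.val - 1) * (t.val - 1)) ((t.val - 1) * (s.val - 1))
    have i2 := nrm_mul y (s.val - 1) (t.val - 1)
    have i3 := nrm_mul y (t.val - 1) (s.val - 1)
    unfold sm
    linarith
  unfold sm
  rw [e]
  have j1 := nrm_mul y (((s.val - 1) * (t.val - 1) - (t.val - 1) * (s.val - 1))
    * (s⁻¹ : GLI).val) (t⁻¹ : GLI).val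
  have j2 := nrm_mul y ((s.val - 1) * (t.val - 1) - (t.val - 1) * (s.val - 1)) (s⁻¹ : GLI).val
  have k1 := nrm_inv_le hs y h1
  have k2 := nrm_inv_le ht y h2
  have p0 := nrm_nonneg y ((s.val - 1) * (t.val - 1) - (t.val - 1) * (s.val - 1))
  have p1 := nrm_nonneg y (s⁻¹ : GLI).val
  have p2 := nrm_nonneg y (t⁻¹ : GLI).val
  have q0 : 0 ≤ 2 * sm y s * sm y t := p0.trans hc
  calc _ ≤ nrm y (((s.val - 1) * (t.val - 1) - (t.val - 1) * (s.val - 1))
    * (s⁻¹ : GLI).val) * nrm y (t⁻¹ : GLI).val := j1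
    _ ≤ (2 * sm y s * sm y t * 3) * 3 := by
        refine mul_le_mul (j2.trans (mul_le_mul hc k1 p1 q0)) k2 p2 (by positivity)
    _ = 18 * nrm y (s.val - 1) * nrm y (t.val - 1) := by unfold sm; ring

/-- commutators of small elements commuting with them are trivial -/
theorem comm_of_small {a b c : GLI} (ha : InG a) (hb : InG b) (hc : InG c)
    (hab : a * b = c * (b * a)) (hca : Commute c a) (hcb : Commute c b) (y : X)
    (hsm : sm y c ≤ 1 / 100) : c = 1 := by
  set g := bst y with hg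
  have hgG : InG g := bst_inG y
  have hconj : ∀ s : GLI, InG s → InG (g⁻¹ * s * g) := fun s hs => (hgG.inv.mul hs).mul hgG
  have hfn : fn ((g⁻¹ * c * g : GLI).val - 1) = sm y c := by
    have e : (g⁻¹ * c * g : GLI).val - 1 = (g⁻¹ : GLI).val * (c.val - 1) * g.val := by
      rw [mul_sub, sub_mul, mul_one, ← Units.val_mul, ← Units.val_mul, ← Units.val_mul,
        inv_mul_cancel, Units.val_one]
    rw [e, ← nrm_act hgG, act_bst]
    rfl
  have h1 : g⁻¹ * c * g = 1 := by
    refine unip_comm (a := g⁻¹ * a * g) (b := g⁻¹ * b * g) (hconj a ha) (hconj b hb) (hconj c hc)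
      ?_ ?_ ?_ (nil_of_small (a := g⁻¹ * a * g) (b := g⁻¹ * b * g) ?_ ?_ ?_ ?_)
    · calc g⁻¹ * a * g * (g⁻¹ * b * g) = g⁻¹ * (a * b) * g := by group
        _ = g⁻¹ * (c * (b * a)) * g := by rw [hab]
        _ = _ := by group
    · show g⁻¹ * c * g * (g⁻¹ * a * g) = g⁻¹ * a * g * (g⁻¹ * c * g)
      calc g⁻¹ * c * g * (g⁻¹ * a * g) = g⁻¹ * (c * a) * g := by group
        _ = g⁻¹ * (a * c) * g := by rw [hca.eq]
        _ = _ := by group
    · show g⁻¹ * c * g * (g⁻¹ * b * g) = g⁻¹ * b * g * (g⁻¹ * c * g)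
      calc g⁻¹ * c * g * (g⁻¹ * b * g) = g⁻¹ * (c * b) * g := by group
        _ = g⁻¹ * (b * c) * g := by rw [hcb.eq]
        _ = _ := by group
    · calc g⁻¹ * a * g * (g⁻¹ * b * g) = g⁻¹ * (a * b) * g := by group
        _ = g⁻¹ * (c * (b * a)) * g := by rw [hab]
        _ = _ := by group
    · show g⁻¹ * c * g * (g⁻¹ * a * g) = g⁻¹ * a * g * (g⁻¹ * c * g)
      calc g⁻¹ * c * g * (g⁻¹ * a * g) = g⁻¹ * (c * a) * g := by group
        _ = g⁻¹ * (a * c) * g := by rw [hca.eq]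
        _ = _ := by group
    · show g⁻¹ * c * g * (g⁻¹ * b * g) = g⁻¹ * b * g * (g⁻¹ * c * g)
      calc g⁻¹ * c * g * (g⁻¹ * b * g) = g⁻¹ * (c * b) * g := by group
        _ = g⁻¹ * (b * c) * g := by rw [hcb.eq]
        _ = _ := by group
    · intro i j
      have := abs_entry_le_fn ((g⁻¹ * c * g : GLI).val - 1) i j
      rw [hfn] at this
      linarith
  have : c = g * (g⁻¹ * c * g) * g⁻¹ := by group
  rw [this, h1]
  group

theorem finite_sm {Γ : Subgroup GLI} (hΓ : Disc Γ) (y : X) (e : ℝ) :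
    {γ | γ ∈ Γ ∧ sm y γ ≤ e}.Finite := by
  refine (finite_fn_le hΓ (Real.exp (2 * hd y 0) * e + Real.sqrt 5)).subset ?_
  rintro γ ⟨h1, h2⟩
  refine ⟨h1, ?_⟩
  have e1 : γ.val = (γ.val - 1) + 1 := by abel
  have h3 := fn_add (γ.val - 1) 1
  rw [← e1, fn_one] at h3
  have h4 := nrm_lip y 0 (γ.val - 1)
  rw [nrm_zero] at h4
  have h5 : Real.exp (2 * hd y 0) * nrm y (γ.val - 1) ≤ Real.exp (2 * hd y 0) * e :=
    mul_le_mul_of_nonneg_left h2 (Real.exp_nonneg _)
  linarith

end Z1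

/-- [Z1] Zassenhaus: small elements of a discrete group commute. -/
theorem zassenhaus : ∃ η₀ : ℝ, 0 < η₀ ∧ ∀ (Γ : Subgroup GLI), Disc Γ → ∀ (y : X),
    ∀ γ ∈ Γ, ∀ δ ∈ Γ, sm y γ ≤ η₀ → sm y δ ≤ η₀ → γ * δ = δ * γ := by
  refine ⟨1 / 100, by norm_num, ?_⟩
  intro Γ hΓ y
  by_contra hcon
  push Not at hcon
  set P : Set (GLI × GLI) := {p | (p.1 ∈ Γ ∧ sm y p.1 ≤ 1 / 100) ∧ (p.2 ∈ Γ ∧ sm y p.2 ≤ 1 / 100)
    ∧ p.1 * p.2 ≠ p.2 * p.1} with hP
  have hfin : P.Finite := by
    refine ((Z1.finite_sm hΓ y (1 / 100)).prod (Z1.finite_sm hΓ y (1 / 100))).subset ?_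
    rintro ⟨s, t⟩ ⟨h1, h2, -⟩
    exact ⟨h1, h2⟩
  have hne : P.Nonempty := by
    obtain ⟨γ, hγ, δ, hδ, h1, h2, h3⟩ := hcon
    exact ⟨(γ, δ), ⟨hγ, h1⟩, ⟨hδ, h2⟩, h3⟩
  obtain ⟨⟨s, t⟩, hmem, hmin⟩ := Set.exists_min_image P
    (fun p => sm y (p.1 * p.2 * p.1⁻¹ * p.2⁻¹)) hfin hne
  obtain ⟨⟨hs, hs1⟩, ⟨ht, ht1⟩, hst⟩ := hmem
  simp only at hs hs1 ht ht1 hst
  have hsG := hΓ.inG s hs
  have htG := hΓ.inG t ht
  set c := s * t * s⁻¹ * t⁻¹ with hc
  have hcΓ : c ∈ Γ := Γ.mul_mem (Γ.mul_mem (Γ.mul_mem hs ht) (Γ.inv_mem hs)) (Γ.inv_mem ht)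
  have hcG := hΓ.inG c hcΓ
  have hc1 : c ≠ 1 := by
    intro h
    apply hst
    have : s * t * s⁻¹ * t⁻¹ * (t * s) = t * s := by rw [← hc, h, one_mul]
    rw [← this]; group
  have hcpos : 0 < sm y c := by
    rcases (Z1.sm_nonneg y c).lt_or_eq with h | h
    · exact h
    · exact absurd ((sm_eq_zero y c).1 h.symm) hc1
  have hcle : sm y c ≤ 1 / 100 := by
    have h1 := Z1.sm_comm_le hsG htG y hs1 ht1
    have h2 := Z1.sm_nonneg y s
    have h3 := Z1.sm_nonneg y t
    nlinarith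
  have hcomm : ∀ r ∈ Γ, sm y r ≤ 1 / 100 → Commute c r := by
    intro r hr hr1
    by_contra hne
    have hmem2 : (r, c) ∈ P := ⟨⟨hr, hr1⟩, ⟨hcΓ, hcle⟩, fun h => hne h.symm⟩
    have h1 := hmin (r, c) hmem2
    simp only at h1
    have h2 := Z1.sm_comm_le (hΓ.inG r hr) hcG y hr1 hcle
    have h3 := Z1.sm_nonneg y r
    nlinarith
  apply hc1
  refine Z1.comm_of_small hsG htG hcG ?_ (hcomm s hs hs1) (hcomm t ht ht1) y hcle
  rw [hc]; group

end Pool.Agent.helper21.WB
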